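import Pool.Agent.P.MP_4a4b50_gt.Defs
import Pool.Agent.P.MP_4a4b50_gt.Lam.All

set_option autoImplicit false
open Pool.Agent.P.MP_4a4b50_gt

namespace Pool.Agent.Results.MP_4a4b50_gt.ExactRange

theorem result (n N : ℕ) (hn : 3 ≤ n) (hN : 3 ≤ N) :
    (∀ H K : Set (EuclideanSpace ℝ (Fin n)), IsCPlus N H → IsCPlus N K →
      (∀ u, ‖u‖ = 1 → supp H u + supp H (-u) = supp K u + supp K (-u)) →
      (∀ u, ‖u‖ = 1 → radii H (-u) * radii K u = radii K (-u) * radii H u) →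
      ∃ v, H = (fun x => x + v) '' K) ↔ n = 3 :=
  Lam.exact_range Lam.all_GEO Lam.all_BODY n N hn hN

end Pool.Agent.Results.MP_4a4b50_gt.ExactRange
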